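import Pool.Agent.U208.HE.Core

/-! Exchange of the coordinates, and complex Henon maps in the form `(x, y) ↦ (p(x) - a y, x)`. -/

set_option autoImplicit false

open MeasureTheory Filter Topology
open scoped ENNReal NNReal

namespace Pool.Agent.U208.HE

open Pool.Agent.Helper179.KS Pool.Agent.Helper179.Eq Pool.Agent.Results.MP_636246_an.SinkSaddles
open Pool.Agent.Y203.HN

/-- The map `(x, y) ↦ (p(x) - a y, x)`. -/
noncomputable def elemHenon (p : Polynomial ℂ) (a : ℂ) (z : ℂ × ℂ) : ℂ × ℂ :=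
  (p.eval z.1 - a * z.2, z.1)

/-- Complex Henon maps: compositions `f₁ ∘ ⋯ ∘ f_m` (`m ≥ 1`) of maps
`(x, y) ↦ (p_j(x) - a_j y, x)` with `deg p_j ≥ 2` and `a_j ≠ 0`. -/
inductive IsHenonMap : (ℂ × ℂ → ℂ × ℂ) → Prop
  | elem (p : Polynomial ℂ) (a : ℂ) (hp : 2 ≤ p.natDegree) (ha : a ≠ 0) :
      IsHenonMap (elemHenon p a)
  | comp (p : Polynomial ℂ) (a : ℂ) (f : ℂ × ℂ → ℂ × ℂ) (hp : 2 ≤ p.natDegree) (ha : a ≠ 0)
      (hf : IsHenonMap f) : IsHenonMap (elemHenon p a ∘ f)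

/-- exchange of the coordinates in the source and in the target -/
def sw (f : ℂ × ℂ → ℂ × ℂ) : ℂ × ℂ → ℂ × ℂ := fun z => (f z.swap).swap

lemma sw_sw (f : ℂ × ℂ → ℂ × ℂ) : sw (sw f) = f := by
  funext z
  simp [sw]

lemma sw_comp (f g : ℂ × ℂ → ℂ × ℂ) : sw (f ∘ g) = sw f ∘ sw g := by
  funext z
  simp [sw]

lemma sw_iterate (f : ℂ × ℂ → ℂ × ℂ) (n : ℕ) : (sw f)^[n] = sw (f^[n]) := by
  induction n with
  | zero => funext z; simp [sw]
  | succ n ih => rw [Function.iterate_succ', ih, ← sw_comp, ← Function.iterate_succ']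

lemma sw_elem (p : Polynomial ℂ) (a : ℂ) : sw (elemHenon p a) = elementaryHenon p a := by
  funext z
  simp [sw, elemHenon, elementaryHenon]

lemma IsHenonMap.sw {f : ℂ × ℂ → ℂ × ℂ} (hf : IsHenonMap f) : IsComplexHenon (sw f) := by
  induction hf with
  | elem p a hp ha => rw [sw_elem]; exact IsComplexHenon.elementary p a hp ha
  | comp p a f hp ha _ ih => rw [sw_comp, sw_elem]; exact IsComplexHenon.comp p a _ hp ha ih

lemma ksEntropy_sw (ν : Measure (ℂ × ℂ)) (f : ℂ × ℂ → ℂ × ℂ) :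
    ksEntropy (ν.map Prod.swap) (sw f) = ksEntropy ν f := by
  have key : ∀ (μ : Measure (ℂ × ℂ)) (g : ℂ × ℂ → ℂ × ℂ) (k : ℕ) (P : ℂ × ℂ → Fin k),
      partitionEntropy (μ.map Prod.swap) (sw g) P = partitionEntropy μ g (P ∘ Prod.swap) := by
    intro μ g k P
    unfold partitionEntropy
    congr 1
    funext n
    congr 2
    unfold shannonEntropy
    apply Finset.sum_congr rfl
    intro w _
    congr 1
    have h1 : (μ.map Prod.swap) (itinerary (sw g) P n ⁻¹' {w}) =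
        μ (Prod.swap ⁻¹' (itinerary (sw g) P n ⁻¹' {w})) :=
      (MeasurableEquiv.prodComm (α := ℂ) (β := ℂ)).map_apply _
    have h2 : Prod.swap ⁻¹' (itinerary (sw g) P n ⁻¹' {w}) =
        itinerary g (P ∘ Prod.swap) n ⁻¹' {w} := by
      ext z
      simp only [Set.mem_preimage, Set.mem_singleton_iff]
      have h3 : itinerary (sw g) P n z.swap = itinerary g (P ∘ Prod.swap) n z := by
        funext j
        simp only [itinerary, sw_iterate, sw, Function.comp_apply, Prod.swap_swap]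
      rw [h3]
    rw [Measure.real, Measure.real, h1, h2]
  have hle : ∀ (μ : Measure (ℂ × ℂ)) (g : ℂ × ℂ → ℂ × ℂ),
      ksEntropy (μ.map Prod.swap) (sw g) ≤ ksEntropy μ g := by
    intro μ g
    unfold ksEntropy
    refine iSup_le fun k => iSup_le fun P => iSup_le fun hP => ?_
    rw [key]
    exact le_iSup_of_le k (le_iSup_of_le (P ∘ Prod.swap)
      (le_iSup_of_le (hP.comp measurable_swap) le_rfl))
  apply le_antisymm (hle ν f)
  have h := hle (ν.map Prod.swap) (sw f)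
  rw [sw_sw, Measure.map_map measurable_swap measurable_swap, Prod.swap_swap_eq,
    Measure.map_id] at h
  exact h

lemma inv_sw {ν : Measure (ℂ × ℂ)} {f : ℂ × ℂ → ℂ × ℂ} (h1 : IsProbabilityMeasure ν)
    (h : MeasurePreserving (sw f) ν ν) :
    IsProbabilityMeasure (ν.map Prod.swap) ∧
      MeasurePreserving f (ν.map Prod.swap) (ν.map Prod.swap) := by
  have hs : MeasurePreserving Prod.swap ν (ν.map Prod.swap) := ⟨measurable_swap, rfl⟩
  have hs' : MeasurePreserving Prod.swap (ν.map Prod.swap) ν := by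
    refine ⟨measurable_swap, ?_⟩
    rw [Measure.map_map measurable_swap measurable_swap, Prod.swap_swap_eq, Measure.map_id]
  refine ⟨Measure.isProbabilityMeasure_map measurable_swap.aemeasurable, ?_⟩
  have h2 := (hs.comp h).comp hs'
  have h3 : (Prod.swap ∘ sw f) ∘ Prod.swap = f := by
    funext z
    simp [sw]
  rw [h3] at h2
  exact h2

lemma orb_sw (f : ℂ × ℂ → ℂ × ℂ) (p : ℂ × ℂ) (z : ℂ × ℂ) :
    z ∈ orb (sw f) p ↔ z.swap ∈ orb f p.swap := by
  simp only [orb, Set.mem_range, sw_iterate, sw]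
  constructor
  · rintro ⟨i, hi⟩
    exact ⟨i, by rw [← hi, Prod.swap_swap]⟩
  · rintro ⟨i, hi⟩
    exact ⟨i, by rw [hi, Prod.swap_swap]⟩

lemma cycleData_sw {f : ℂ × ℂ → ℂ × ℂ} {m : ℕ} {p : ℂ × ℂ} {K U : Set (ℂ × ℂ)} {H : ℝ}
    (D : CycleData (sw f) m p K U H) :
    CycleData f m p.swap (Prod.swap ⁻¹' K) (Prod.swap ⁻¹' U) H := by
  have hae : ∀ (ν : Measure (ℂ × ℂ)) (Q : ℂ × ℂ → Prop),
      (∀ᵐ z ∂(ν.map Prod.swap), Q z) → ∀ᵐ z ∂ν, Q z.swap := by
    intro ν Q h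
    exact ae_of_ae_map measurable_swap.aemeasurable h
  have hinv : ∀ ν : Measure (ℂ × ℂ), IsProbabilityMeasure ν → MeasurePreserving f ν ν →
      IsProbabilityMeasure (ν.map Prod.swap) ∧
        MeasurePreserving (sw f) (ν.map Prod.swap) (ν.map Prod.swap) := by
    intro ν h1 h2
    apply inv_sw h1
    rw [sw_sw]
    exact h2
  refine ⟨?_, ?_, D.mpos, ?_, D.Hnn, ?_, D.openU.preimage continuous_swap, ?_, ?_, ?_, ?_⟩
  · have h := measurable_swap.comp (D.meas.comp measurable_swap)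
    have h2 : (Prod.swap ∘ (sw f ∘ Prod.swap)) = f := by
      funext z; simp [sw]
    rw [← h2]
    exact h
  · intro z w hzw
    have h := D.inj (a₁ := z.swap) (a₂ := w.swap) (by simp [sw, hzw])
    exact Prod.swap_injective h
  · have h := D.per
    rw [sw_iterate] at h
    have h2 := congrArg Prod.swap h
    simpa [sw] using h2
  · have : Prod.swap ⁻¹' K = Prod.swap '' K := by
      ext z
      constructor
      · intro h; exact ⟨z.swap, h, by simp⟩
      · rintro ⟨w, hw, rfl⟩; simpa using hw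
    rw [this]
    exact D.cpt.image continuous_swap
  · intro i
    have h := D.mem i
    rw [sw_iterate] at h
    exact h
  · intro ν h1 h2
    obtain ⟨h3, h4⟩ := hinv ν h1 h2
    exact hae ν _ (D.supp _ h3 h4)
  · intro ν h1 h2
    obtain ⟨h3, h4⟩ := hinv ν h1 h2
    filter_upwards [hae ν _ (D.sink _ h3 h4)] with z hz hzU
    have := hz hzU
    rw [orb_sw, Prod.swap_swap] at this
    exact this
  · intro ν h1 h2
    obtain ⟨h3, h4⟩ := hinv ν h1 h2
    have := D.bound _ h3 h4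
    rwa [ksEntropy_sw] at this

lemma eig_sw {f : ℂ × ℂ → ℂ × ℂ} {m : ℕ} {p : ℂ × ℂ} {c : ℂ}
    (h : Module.End.HasEigenvalue
      (fderiv ℂ ((sw f)^[m]) p.swap : ℂ × ℂ →ₗ[ℂ] ℂ × ℂ) c) :
    Module.End.HasEigenvalue (fderiv ℂ (f^[m]) p : ℂ × ℂ →ₗ[ℂ] ℂ × ℂ) c := by
  let S : (ℂ × ℂ) ≃L[ℂ] (ℂ × ℂ) := ContinuousLinearEquiv.prodComm ℂ ℂ ℂ
  have hS : ∀ z : ℂ × ℂ, S z = z.swap := fun z => rfl
  have h1 : (sw f)^[m] = S ∘ (f^[m] ∘ S) := by
    rw [sw_iterate]; rfl
  have h2 : fderiv ℂ ((sw f)^[m]) p.swap =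
      (S : ℂ × ℂ →L[ℂ] ℂ × ℂ).comp ((fderiv ℂ (f^[m]) p).comp (S : ℂ × ℂ →L[ℂ] ℂ × ℂ)) := by
    rw [h1, S.comp_fderiv, S.comp_right_fderiv, hS, Prod.swap_swap]
  rw [h2] at h
  obtain ⟨v, hv⟩ := h.exists_hasEigenvector
  have h3 : S ((fderiv ℂ (f^[m]) p) (S v)) = c • v := hv.apply_eq_smul
  have h4 : (fderiv ℂ (f^[m]) p) (S v) = c • S v := by
    have := congrArg S h3
    rw [map_smul] at this
    rw [← this]
    simp only [hS, Prod.swap_swap]
  have h5 : S v ≠ 0 := by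
    intro h
    exact hv.2 ((map_eq_zero_iff S S.injective).1 h)
  exact Module.End.hasEigenvalue_of_hasEigenvector
    ⟨Module.End.mem_eigenspace_iff.2 h4, h5⟩

lemma per_sw {f : ℂ × ℂ → ℂ × ℂ} {m : ℕ} {p : ℂ × ℂ} (h : f^[m] p = p) :
    (sw f)^[m] p.swap = p.swap := by
  rw [sw_iterate, sw, Prod.swap_swap, h]

lemma att_sw {f : ℂ × ℂ → ℂ × ℂ} {m : ℕ} {p : ℂ × ℂ} (h : Att f m p ∨ Rep f m p) :
    Att (sw f) m p.swap ∨ Rep (sw f) m p.swap := by
  rcases h with h | h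
  · exact Or.inl ⟨h.1, per_sw h.2.1, fun c hc => h.2.2 c (eig_sw hc)⟩
  · exact Or.inr ⟨h.1, per_sw h.2.1, fun c hc => h.2.2 c (eig_sw hc)⟩

/-- The standing data for all complex Henon maps with an attracting or repelling cycle. -/
theorem exists_cycleData {f : ℂ × ℂ → ℂ × ℂ} (hf : IsHenonMap f) {m : ℕ} {p : ℂ × ℂ}
    (h : Att f m p ∨ Rep f m p) : ∃ (K U : Set (ℂ × ℂ)) (H : ℝ), CycleData f m p K U H := by
  obtain ⟨g, G⟩ := exists_good hf.sw
  obtain ⟨R, H, U, D, _⟩ := exists_data G (att_sw h)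
  have D' := cycleData_sw D
  rw [Prod.swap_swap] at D'
  exact ⟨_, _, H, D'⟩

/-- A second fixed point. -/
lemma exists_other (P : Polynomial ℂ) (a y : ℂ) (hP : 2 ≤ P.natDegree)
    (hy : P.eval y = (1 + a) * y)
    (h : ‖P.derivative.eval y‖ + ‖a‖ < 1 ∨ ‖P.derivative.eval y‖ + 1 < ‖a‖) :
    ∃ y' : ℂ, y' ≠ y ∧ P.eval y' = (1 + a) * y' := by
  have hsimple : P.derivative.eval y ≠ 1 + a := by
    intro hc
    rw [hc] at h
    rcases h with h | h
    · have h1 : (1 : ℝ) ≤ ‖1 + a‖ + ‖a‖ := by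
        calc (1 : ℝ) = ‖(1 + a) - a‖ := by simp
          _ ≤ ‖1 + a‖ + ‖a‖ := norm_sub_le _ _
      linarith
    · have h1 : ‖a‖ ≤ ‖1 + a‖ + 1 := by
        calc ‖a‖ = ‖(1 + a) - 1‖ := by simp
          _ ≤ ‖1 + a‖ + ‖(1 : ℂ)‖ := norm_sub_le _ _
          _ = _ := by simp
      linarith
  set Q : Polynomial ℂ := P - Polynomial.C (1 + a) * Polynomial.X with hQ
  have hQdeg : Q.natDegree = P.natDegree := by
    apply Polynomial.natDegree_sub_eq_left_of_natDegree_lt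
    exact lt_of_le_of_lt (Polynomial.natDegree_C_mul_le _ _) (by rw [Polynomial.natDegree_X]; omega)
  have hroot : Q.IsRoot y := by
    rw [Polynomial.IsRoot.def, hQ]
    simp [hy]
  obtain ⟨R, hR⟩ := Polynomial.dvd_iff_isRoot.2 hroot
  have hQ0 : Q ≠ 0 := by
    intro h0
    rw [h0] at hQdeg
    simp at hQdeg
    omega
  have hR0 : R ≠ 0 := by
    rintro rfl
    exact hQ0 (by rw [hR, mul_zero])
  have hRdeg : R.natDegree + 1 = Q.natDegree := by
    rw [hR, Polynomial.natDegree_mul (Polynomial.X_sub_C_ne_zero y) hR0,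
      Polynomial.natDegree_X_sub_C, add_comm]
  have hRd : R.degree ≠ 0 := by
    intro h0
    have h1 : R.natDegree = 0 := Polynomial.natDegree_eq_zero_iff_degree_le_zero.2 h0.le
    omega
  obtain ⟨y', hy'⟩ := IsAlgClosed.exists_root R hRd
  refine ⟨y', ?_, ?_⟩
  · rintro rfl
    apply hsimple
    have h1 : Q.derivative.eval y' = 0 := by
      rw [hR, Polynomial.derivative_mul]
      simp [hy'.eq_zero]
    rw [hQ] at h1
    simp at h1
    linear_combination h1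
  · have h1 : Q.eval y' = 0 := by
      rw [hR, Polynomial.eval_mul, hy'.eq_zero, mul_zero]
    rw [hQ] at h1
    simp at h1
    linear_combination h1

end Pool.Agent.U208.HE
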