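import Pool.Agent.Y203.HN.Main

/-! Complex Henon maps with an attracting or repelling cycle: the pressure of `ψ + t b`, where `b` is
a bump at the cycle, is `max A (B + t)`, and the equilibrium states are not unique for some `t`. -/

set_option autoImplicit false

open MeasureTheory Filter Topology
open scoped ENNReal NNReal

namespace Pool.Agent.U208.HE

open Pool.Agent.Helper179.KS Pool.Agent.Helper179.Eq Pool.Agent.Results.MP_636246_an.SinkSaddles
open Pool.Agent.Y203.HN

variable {f : ℂ × ℂ → ℂ × ℂ} {m : ℕ} {p : ℂ × ℂ} {K U : Set (ℂ × ℂ)} {H : ℝ}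

/-- Decomposition of an invariant measure along the cycle. -/
lemma decomp (D : CycleData f m p K U H) {ν : Measure (ℂ × ℂ)} (hν : IsInvariantProb f ν)
    (h1 : ν.real (orb f p) ≠ 1) :
    ∃ μ : Measure (ℂ × ℂ), IsInvariantProb f μ ∧ μ (orb f p) = 0 ∧
      (∀ e : ℝ, ksEntropy μ f ≤ (e : EReal) →
        ksEntropy ν f ≤ (((1 - ν.real (orb f p)) * e : ℝ) : EReal)) ∧
      (∀ φ : ℂ × ℂ → ℝ, Continuous φ → ∫ z, φ z ∂ν =
        ν.real (orb f p) * avg f m p φ + (1 - ν.real (orb f p)) * ∫ z, φ z ∂μ) := by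
  have hprob := hν.1
  have hT := hν.2
  set A := orb f p with hAdef
  have hA : MeasurableSet A := orb_meas D.mpos D.per
  have hTA : f ⁻¹' A = A := orb_pre D.inj D.mpos D.per
  have hs1 : ν Aᶜ ≠ 0 := by
    intro h
    apply h1
    have : ν A = 1 := (prob_compl_eq_zero_iff hA).1 h
    simp [Measure.real, this]
  set t : ℝ≥0 := (ν Aᶜ).toNNReal with ht
  have htA : (t : ℝ≥0∞) = ν Aᶜ := ENNReal.coe_toNNReal (measure_ne_top ν Aᶜ)
  have htne : t ≠ 0 := by
    intro h; rw [h] at htA; exact hs1 htA.symm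
  have htr : (1 - ν.real A) = t := by
    have : ν.real Aᶜ = 1 - ν.real A := by
      rw [measureReal_compl hA]; simp
    rw [← this]; rfl
  set μ₂ : Measure (ℂ × ℂ) := t⁻¹ • ν.restrict Aᶜ with hμ₂
  have hp2 : IsProbabilityMeasure μ₂ := by
    constructor
    rw [hμ₂, Measure.smul_apply, Measure.restrict_apply_univ, ← htA]
    show ((t⁻¹ : ℝ≥0) : ℝ≥0∞) * (t : ℝ≥0∞) = 1
    rw [← ENNReal.coe_mul, inv_mul_cancel₀ htne]; simp
  have hTAc : f ⁻¹' Aᶜ = Aᶜ := by rw [Set.preimage_compl, hTA]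
  have hr2 : MeasurePreserving f (ν.restrict Aᶜ) (ν.restrict Aᶜ) := by
    have := hT.restrict_preimage hA.compl
    rwa [hTAc] at this
  have hm2 : MeasurePreserving f μ₂ μ₂ := hr2.smul_measure _
  have hc2 : μ₂ A = 0 := by
    rw [hμ₂, Measure.smul_apply, Measure.restrict_apply hA]; simp
  refine ⟨μ₂, ⟨hp2, hm2⟩, hc2, ?_, ?_⟩
  · intro e he
    by_cases hs0 : ν A = 0
    · have hνμ : ν = μ₂ := by
        have h3 : ν Aᶜ = 1 := by rw [prob_compl_eq_one_iff hA]; exact hs0
        have h4 : t = 1 := by rw [ht, h3]; rfl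
        rw [hμ₂, h4, inv_one, one_smul, Measure.restrict_eq_self_of_ae_mem]
        exact measure_eq_zero_iff_ae_notMem.1 hs0
      have h5 : ν.real A = 0 := by simp [Measure.real, hs0]
      rw [h5, hνμ]
      simpa using he
    · set s : ℝ≥0 := (ν A).toNNReal with hs
      have hsA : (s : ℝ≥0∞) = ν A := ENNReal.coe_toNNReal (measure_ne_top ν A)
      have hsne : s ≠ 0 := by
        intro h; rw [h] at hsA; exact hs0 hsA.symm
      set μ₁ : Measure (ℂ × ℂ) := s⁻¹ • ν.restrict A with hμ₁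
      have hνe : ν = s • μ₁ + t • μ₂ := by
        rw [hμ₁, hμ₂, smul_smul, smul_smul, mul_inv_cancel₀ hsne, mul_inv_cancel₀ htne, one_smul,
          one_smul, Measure.restrict_add_restrict_compl hA]
      have hp1 : IsProbabilityMeasure μ₁ := by
        constructor
        rw [hμ₁, Measure.smul_apply, Measure.restrict_apply_univ, ← hsA]
        show ((s⁻¹ : ℝ≥0) : ℝ≥0∞) * (s : ℝ≥0∞) = 1
        rw [← ENNReal.coe_mul, inv_mul_cancel₀ hsne]; simp
      have hr1 : MeasurePreserving f (ν.restrict A) (ν.restrict A) := by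
        have := hT.restrict_preimage hA
        rwa [hTA] at this
      have hc1 : μ₁ Aᶜ = 0 := by
        rw [hμ₁, Measure.smul_apply, Measure.restrict_apply hA.compl]; simp
      have hk1 : ksEntropy μ₁ f ≤ ((0 : ℝ) : EReal) := ksEntropy_finite (orb_finite D.mpos D.per) hc1
      rw [ksEntropy_le_iff] at hk1 he ⊢
      intro k P hP
      have key := partitionEntropy_mix_le μ₁ μ₂ s t hT.measurable hP 0 e (hk1 k P hP) (he k P hP)
      rw [← hνe] at key
      rw [htr]
      simpa using key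
  · intro φ hφ
    rw [D.integral_eq hν hφ, htr, hμ₂, integral_smul_nnreal_measure]
    congr 1
    show _ = (t : ℝ) * ((t⁻¹ : ℝ≥0) • ∫ z in Aᶜ, φ z ∂ν)
    rw [NNReal.smul_def, smul_eq_mul, ← mul_assoc, NNReal.coe_inv,
      mul_inv_cancel₀ (by exact_mod_cast htne), one_mul]

/-- The cycle has zero entropy. -/
lemma freeEnergy_cyc (D : CycleData f m p K U H) (φ : ℂ × ℂ → ℝ) :
    freeEnergy f φ (cyc f m p) = ((avg f m p φ : ℝ) : EReal) := by
  have hcinv := cyc_inv (f := f) (p := p) D.meas D.mpos D.per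
  have hcprob := hcinv.1
  have h0 : cyc f m p (orb f p)ᶜ = 0 := by
    have hO := orb_meas D.mpos D.per
    unfold cyc
    rw [Measure.smul_apply, Measure.finsetSum_apply]
    have : ∀ i ∈ Finset.range m, (Measure.dirac (f^[i] p) : Measure (ℂ × ℂ)) (orb f p)ᶜ = 0 := by
      intro i _
      rw [Measure.dirac_apply' _ hO.compl, Set.indicator_of_notMem]
      intro h
      exact h ⟨i, rfl⟩
    rw [Finset.sum_eq_zero this, smul_zero]
  have h1 : ksEntropy (cyc f m p) f = 0 :=
    le_antisymm (ksEntropy_finite (orb_finite D.mpos D.per) h0) (ksEntropy_nonneg _ _)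
  unfold freeEnergy
  rw [integral_cyc, h1, zero_add]

/-- The invariant probability measures that do not charge the cycle. -/
def Inv0 (f : ℂ × ℂ → ℂ × ℂ) (p : ℂ × ℂ) (ν : Measure (ℂ × ℂ)) : Prop :=
  IsInvariantProb f ν ∧ ν (orb f p) = 0

/-- The pressure of the weight off the cycle. -/
noncomputable def offPressure (f : ℂ × ℂ → ℂ × ℂ) (p : ℂ × ℂ) (ψ : ℂ × ℂ → ℝ) : EReal :=
  ⨆ (ν : Measure (ℂ × ℂ)) (_ : Inv0 f p ν), freeEnergy f ψ ν

/-- the bump `b` is adapted to the cycle and to `U` -/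
structure IsBump (f : ℂ × ℂ → ℂ × ℂ) (p : ℂ × ℂ) (U : Set (ℂ × ℂ)) (b : ℂ × ℂ → ℝ) : Prop where
  cont : Continuous b
  one : ∀ z ∈ orb f p, b z = 1
  zero : ∀ z ∉ U, b z = 0

variable {b ψ : ℂ × ℂ → ℝ}

lemma avg_add (D : CycleData f m p K U H) (hb : IsBump f p U b) (t : ℝ) :
    avg f m p (fun z => ψ z + t * b z) = avg f m p ψ + t := by
  unfold avg
  have h1 : ∀ i ∈ Finset.range m, ψ (f^[i] p) + t * b (f^[i] p) = ψ (f^[i] p) + t := by
    intro i _
    rw [hb.one _ ⟨i, rfl⟩, mul_one]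
  rw [Finset.sum_congr rfl h1, Finset.sum_add_distrib, Finset.sum_const, Finset.card_range,
    nsmul_eq_mul, add_div]
  congr 1
  have hm' : (m : ℝ) ≠ 0 := by exact_mod_cast D.mpos.ne'
  field_simp

lemma integral_off (D : CycleData f m p K U H) (hb : IsBump f p U b) {ν : Measure (ℂ × ℂ)}
    (hν : Inv0 f p ν) (t : ℝ) : ∫ z, (ψ z + t * b z) ∂ν = ∫ z, ψ z ∂ν := by
  apply integral_congr_ae
  have h0 : ∀ᵐ z ∂ν, z ∉ orb f p := measure_eq_zero_iff_ae_notMem.1 hν.2
  filter_upwards [D.sink ν hν.1.1 hν.1.2, h0] with z h1 h2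
  have : z ∉ U := fun h => h2 (h1 h)
  rw [hb.zero z this]
  ring

lemma freeEnergy_off (D : CycleData f m p K U H) (hb : IsBump f p U b) {ν : Measure (ℂ × ℂ)}
    (hν : Inv0 f p ν) (t : ℝ) :
    freeEnergy f (fun z => ψ z + t * b z) ν = freeEnergy f ψ ν := by
  unfold freeEnergy
  rw [integral_off D hb hν t]

/-- The off-cycle pressure is a real number. -/
lemma exists_A (D : CycleData f m p K U H) (hψ : Continuous ψ) (hne : ∃ ν, Inv0 f p ν) :
    ∃ A : ℝ, offPressure f p ψ = (A : EReal) := by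
  obtain ⟨ν₀, hν₀⟩ := hne
  obtain ⟨C, hC⟩ := (D.cpt.bddAbove_image hψ.norm.continuousOn)
  have hup : offPressure f p ψ ≤ ((H + C : ℝ) : EReal) := by
    unfold offPressure
    apply iSup_le
    intro ν
    apply iSup_le
    intro hν
    have hprob := hν.1.1
    unfold freeEnergy
    rw [EReal.coe_add]
    refine add_le_add (D.bound ν hν.1.1 hν.1.2) ?_
    have hKK : ∀ᵐ z ∂ν, ‖ψ z‖ ≤ C := by
      filter_upwards [D.supp ν hν.1.1 hν.1.2] with z hz
      exact hC ⟨z, hz, rfl⟩
    have h1 : ‖∫ z, ψ z ∂ν‖ ≤ C := by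
      have := norm_integral_le_of_norm_le_const hKK
      simpa using this
    have h2 : ∫ z, ψ z ∂ν ≤ C := (le_abs_self _).trans h1
    exact_mod_cast h2
  have hlow : ((∫ z, ψ z ∂ν₀ : ℝ) : EReal) ≤ offPressure f p ψ := by
    have hprob := hν₀.1.1
    refine le_trans ?_ (le_iSup_of_le ν₀ (le_iSup_of_le hν₀ le_rfl))
    unfold freeEnergy
    calc ((∫ z, ψ z ∂ν₀ : ℝ) : EReal) = 0 + ((∫ z, ψ z ∂ν₀ : ℝ) : EReal) := by rw [zero_add]
      _ ≤ _ := add_le_add (ksEntropy_nonneg _ _) le_rfl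
  refine ⟨(offPressure f p ψ).toReal, (EReal.coe_toReal ?_ ?_).symm⟩
  · intro h; rw [h] at hup; exact EReal.coe_ne_top _ (top_le_iff.1 hup)
  · intro h; rw [h] at hlow; exact EReal.coe_ne_bot _ (le_bot_iff.1 hlow)

/-- The basic inequality. -/
lemma freeEnergy_le (D : CycleData f m p K U H) (hb : IsBump f p U b) (hψ : Continuous ψ)
    {ν : Measure (ℂ × ℂ)} (hν : IsInvariantProb f ν) {A : ℝ}
    (hA : ∀ μ, Inv0 f p μ → freeEnergy f ψ μ ≤ (A : EReal)) (t : ℝ) :
    freeEnergy f (fun z => ψ z + t * b z) ν ≤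
      (((1 - ν.real (orb f p)) * A + ν.real (orb f p) * (avg f m p ψ + t) : ℝ) : EReal) := by
  have hφ : Continuous (fun z => ψ z + t * b z) := hψ.add (continuous_const.mul hb.cont)
  by_cases h1 : ν.real (orb f p) = 1
  · rw [eq_cyc_of_full D hν h1, freeEnergy_cyc D, avg_add D hb]
    rw [eq_cyc_of_full D hν h1] at h1
    rw [h1]
    simp
  · obtain ⟨μ, hμ, hμ0, hent, hint⟩ := decomp D hν h1
    have h2 := hA μ ⟨hμ, hμ0⟩
    have h3 : ksEntropy μ f ≤ ((A - ∫ z, ψ z ∂μ : ℝ) : EReal) := by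
      unfold freeEnergy at h2
      rw [EReal.coe_sub]
      apply EReal.le_sub_iff_add_le _ _ |>.2 h2
      · left; exact EReal.coe_ne_bot _
      · left; exact EReal.coe_ne_top _
    have h4 := hent _ h3
    unfold freeEnergy
    rw [hint _ hφ, avg_add D hb, integral_off D hb ⟨hμ, hμ0⟩]
    refine (add_le_add h4 le_rfl).trans ?_
    rw [← EReal.coe_add, EReal.coe_le_coe_iff]
    apply le_of_eq
    ring

/-- The pressure of `ψ + t b`. -/
theorem pressure_eq (D : CycleData f m p K U H) (hb : IsBump f p U b) (hψ : Continuous ψ)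
    {A : ℝ} (hA : offPressure f p ψ = (A : EReal)) (t : ℝ) :
    pressure f (fun z => ψ z + t * b z) = ((max A (avg f m p ψ + t) : ℝ) : EReal) := by
  have hA' : ∀ μ, Inv0 f p μ → freeEnergy f ψ μ ≤ (A : EReal) := by
    intro μ hμ
    rw [← hA]
    exact le_iSup_of_le μ (le_iSup_of_le hμ le_rfl)
  apply le_antisymm
  · apply iSup_le
    intro ν
    apply iSup_le
    intro hν
    have hprob := hν.1
    refine (freeEnergy_le D hb hψ hν hA' t).trans ?_
    rw [EReal.coe_le_coe_iff]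
    have h1 : ν.real (orb f p) ≤ 1 := measureReal_le_one
    have h2 : 0 ≤ ν.real (orb f p) := measureReal_nonneg
    have h3 : A ≤ max A (avg f m p ψ + t) := le_max_left _ _
    have h4 : avg f m p ψ + t ≤ max A (avg f m p ψ + t) := le_max_right _ _
    nlinarith
  · have hc : IsInvariantProb f (cyc f m p) := cyc_inv (f := f) (p := p) D.meas D.mpos D.per
    rcases max_cases A (avg f m p ψ + t) with h | h
    · rw [h.1, ← hA]
      apply iSup_le
      intro ν
      apply iSup_le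
      intro hν
      rw [← freeEnergy_off D hb hν t]
      exact le_iSup_of_le ν (le_iSup_of_le hν.1 le_rfl)
    · rw [h.1, ← avg_add D hb t, ← freeEnergy_cyc D]
      exact le_iSup_of_le _ (le_iSup_of_le hc le_rfl)

lemma cyc_real (D : CycleData f m p K U H) : (cyc f m p).real (orb f p) = 1 := by
  have hcprob := (cyc_inv (f := f) (p := p) D.meas D.mpos D.per).1
  have hO := orb_meas D.mpos D.per
  have h0 : cyc f m p (orb f p)ᶜ = 0 := by
    unfold cyc
    rw [Measure.smul_apply, Measure.finsetSum_apply]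
    have : ∀ i ∈ Finset.range m, (Measure.dirac (f^[i] p) : Measure (ℂ × ℂ)) (orb f p)ᶜ = 0 := by
      intro i _
      rw [Measure.dirac_apply' _ hO.compl, Set.indicator_of_notMem]
      intro h
      exact h ⟨i, rfl⟩
    rw [Finset.sum_eq_zero this, smul_zero]
  have : cyc f m p (orb f p) = 1 := (prob_compl_eq_zero_iff hO).1 h0
  simp [Measure.real, this]

/-- Equilibrium states for `t` below the transition. -/
theorem equilibrium_below (D : CycleData f m p K U H) (hb : IsBump f p U b) (hψ : Continuous ψ)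
    {A : ℝ} (hA : offPressure f p ψ = (A : EReal)) {t : ℝ} (ht : avg f m p ψ + t < A)
    (ν : Measure (ℂ × ℂ)) : IsEquilibriumState f (fun z => ψ z + t * b z) ν ↔
      (Inv0 f p ν ∧ freeEnergy f ψ ν = (A : EReal)) := by
  have hA' : ∀ μ, Inv0 f p μ → freeEnergy f ψ μ ≤ (A : EReal) := by
    intro μ hμ
    rw [← hA]
    exact le_iSup_of_le μ (le_iSup_of_le hμ le_rfl)
  have hp := pressure_eq D hb hψ hA t
  rw [max_eq_left ht.le] at hp
  constructor
  · rintro ⟨hν, he⟩
    have hprob := hν.1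
    have h1 := freeEnergy_le D hb hψ hν hA' t
    rw [he, hp, EReal.coe_le_coe_iff] at h1
    have h2 : 0 ≤ ν.real (orb f p) := measureReal_nonneg
    have h3 : ν.real (orb f p) = 0 := by
      by_contra hne
      have : 0 < ν.real (orb f p) := lt_of_le_of_ne h2 (Ne.symm hne)
      nlinarith
    have h4 : ν (orb f p) = 0 := by
      rw [Measure.real, ENNReal.toReal_eq_zero_iff] at h3
      rcases h3 with h3 | h3
      · exact h3
      · exact absurd h3 (measure_ne_top _ _)
    refine ⟨⟨hν, h4⟩, ?_⟩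
    rw [← freeEnergy_off D hb ⟨hν, h4⟩ t, he, hp]
  · rintro ⟨hν, he⟩
    refine ⟨hν.1, ?_⟩
    rw [hp, freeEnergy_off D hb hν t, he]

/-- Equilibrium states for `t` above the transition. -/
theorem equilibrium_above (D : CycleData f m p K U H) (hb : IsBump f p U b) (hψ : Continuous ψ)
    {A : ℝ} (hA : offPressure f p ψ = (A : EReal)) {t : ℝ} (ht : A < avg f m p ψ + t)
    (ν : Measure (ℂ × ℂ)) : IsEquilibriumState f (fun z => ψ z + t * b z) ν ↔
      ν = cyc f m p := by
  have hA' : ∀ μ, Inv0 f p μ → freeEnergy f ψ μ ≤ (A : EReal) := by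
    intro μ hμ
    rw [← hA]
    exact le_iSup_of_le μ (le_iSup_of_le hμ le_rfl)
  have hp := pressure_eq D hb hψ hA t
  rw [max_eq_right ht.le] at hp
  constructor
  · rintro ⟨hν, he⟩
    have hprob := hν.1
    have h1 := freeEnergy_le D hb hψ hν hA' t
    rw [he, hp, EReal.coe_le_coe_iff] at h1
    have h2 : ν.real (orb f p) ≤ 1 := measureReal_le_one
    have h3 : ν.real (orb f p) = 1 := by
      by_contra hne
      have : ν.real (orb f p) < 1 := lt_of_le_of_ne h2 hne
      nlinarith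
    exact eq_cyc_of_full D hν h3
  · rintro rfl
    refine ⟨cyc_inv (f := f) (p := p) D.meas D.mpos D.per, ?_⟩
    rw [hp, freeEnergy_cyc D, avg_add D hb]

/-- Equilibrium states at the transition. -/
theorem equilibrium_at (D : CycleData f m p K U H) (hb : IsBump f p U b) (hψ : Continuous ψ)
    {A : ℝ} (hA : offPressure f p ψ = (A : EReal)) {t : ℝ} (ht : avg f m p ψ + t = A) :
    IsEquilibriumState f (fun z => ψ z + t * b z) (cyc f m p) ∧
    (∀ ν, Inv0 f p ν → freeEnergy f ψ ν = (A : EReal) →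
      IsEquilibriumState f (fun z => ψ z + t * b z) ν) := by
  have hp := pressure_eq D hb hψ hA t
  rw [ht, max_self] at hp
  refine ⟨⟨cyc_inv (f := f) (p := p) D.meas D.mpos D.per, ?_⟩, ?_⟩
  · rw [hp, freeEnergy_cyc D, avg_add D hb, ht]
  · intro ν hν he
    exact ⟨hν.1, by rw [hp, freeEnergy_off D hb hν t, he]⟩

/-- Either there is no equilibrium state below the transition or there are two at it. -/
theorem dichotomy (D : CycleData f m p K U H) (hb : IsBump f p U b) (hψ : Continuous ψ)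
    {A : ℝ} (hA : offPressure f p ψ = (A : EReal)) :
    (∀ t : ℝ, t < A - avg f m p ψ → ¬ ∃ ν, IsEquilibriumState f (fun z => ψ z + t * b z) ν) ∨
    (∃ ν₁ ν₂ : Measure (ℂ × ℂ), ν₁ ≠ ν₂ ∧
      IsEquilibriumState f (fun z => ψ z + (A - avg f m p ψ) * b z) ν₁ ∧
      IsEquilibriumState f (fun z => ψ z + (A - avg f m p ψ) * b z) ν₂) := by
  by_cases h : ∃ ν, Inv0 f p ν ∧ freeEnergy f ψ ν = (A : EReal)
  · right
    obtain ⟨ν, hν, he⟩ := h
    have h1 := equilibrium_at D hb hψ hA (t := A - avg f m p ψ) (by ring)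
    refine ⟨cyc f m p, ν, ?_, h1.1, h1.2 ν hν he⟩
    rintro rfl
    have h2 := cyc_real D
    rw [Measure.real, hν.2] at h2
    simp at h2
  · left
    rintro t ht ⟨ν, hν⟩
    exact h ⟨ν, (equilibrium_below D hb hψ hA (by linarith) ν).1 hν⟩

end Pool.Agent.U208.HE
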